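import Pool.Agent.Work.MP_dfab40_lc.R.E.Tab

/-!
# Closure properties of computed functions (block E)
-/

namespace Pool.Agent.Work.MP_dfab40_lc.R

variable {M : Type} [PAm M] [ISig M]

theorem comp_leaf {X : Set M} [IS ({X} : Set (Set M))] {H : Set M} (hH : Cdd H) (i c : M) :
    Comp X H (pr 0 (pr i c)) (fun a => lf X i c a) := by
  refine ⟨fun w T hT x v hv => ?_, fun b => ?_⟩
  · have h := jst_of_ok hT hv
    simpa [Jst] using h
  · have hf : Df ({X} : Set (Set M)) (fun a => lf X i c a) :=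
      df_lf (Set.mem_singleton X) (Df.const i) (Df.const c) Df.id
    obtain ⟨C, hC⟩ := Df.bdd hf b
    exact comp_ext (w := 0) hH b C (ok_zero X _ 0) hC (fun x hx => Or.inl ⟨rfl, rfl⟩)

open Classical in
theorem comp_H {X : Set M} [IS ({X} : Set (Set M))] {H : Set M} (hH : Cdd H) :
    Comp X H (pr 1 (pr 0 0)) (fun a => if a ∈ H then 1 else 0) := by
  refine ⟨fun w T hT x v hv => ?_, fun b => ?_⟩
  · have h := jst_of_ok hT hv
    have h2 : x < w ∧ ((x ∈ H ∧ v = 1) ∨ (¬ x ∈ H ∧ v = 0)) := by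
      simpa [Jst] using h
    rcases h2.2 with ⟨h3, h4⟩ | ⟨h3, h4⟩
    · simp [h3, h4]
    · simp [h3, h4]
  · refine comp_ext (w := b) hH b 2 (ok_zero X _ b) (fun x _ => ?_) (fun x hx => ?_)
    · by_cases h : x ∈ H
      · simp [h]
      · simp [h]
    · refine Or.inr (Or.inl ⟨rfl, hx, ?_⟩)
      by_cases h : x ∈ H
      · exact Or.inl ⟨h, by simp [h]⟩
      · exact Or.inr ⟨h, by simp [h]⟩

theorem comp_comp {X : Set M} [IS ({X} : Set (Set M))] {H : Set M} (hH : Cdd H) {p q : M}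
    {ψ φ : M → M} (hp : Comp X H p ψ) (hq : Comp X H q φ) :
    Comp X H (pr 2 (pr p q)) (fun a => φ (ψ a)) := by
  refine ⟨fun w T hT x v hv => ?_, fun b => ?_⟩
  · have h := jst_of_ok hT hv
    have h2 : ∃ u, u < T ∧ (Ev T p x u ∧ Ev T q u v) := by
      simpa [Jst] using h
    obtain ⟨u, -, h3, h4⟩ := h2
    beta_reduce
    rw [hq.1 w T hT u v h4, hp.1 w T hT x u h3]
  · obtain ⟨w1, T1, h1, h1'⟩ := hp.2 b
    obtain ⟨w2, T2, h2, h2'⟩ := hq.2 T1
    obtain ⟨w, T, hT, hT1, hT2⟩ := ok_union h1 h2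
    refine comp_ext (w := w) hH b T hT (fun x hx => ev_lt (hT2 _ (h2' _ (ev_lt (h1' x hx))))) ?_
    intro x hx
    exact Or.inr (Or.inr (Or.inl ⟨rfl, ψ x, ev_lt (hT1 _ (h1' x hx)), hT1 _ (h1' x hx),
      hT2 _ (h2' _ (ev_lt (h1' x hx)))⟩))

theorem comp_pair {X : Set M} [IS ({X} : Set (Set M))] {H : Set M} (hH : Cdd H) {p q : M}
    {ψ φ : M → M} (hp : Comp X H p ψ) (hq : Comp X H q φ) :
    Comp X H (pr 3 (pr p q)) (fun a => pr (ψ a) (φ a)) := by
  refine ⟨fun w T hT x v hv => ?_, fun b => ?_⟩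
  · have h := jst_of_ok hT hv
    have h2 : Ev T p x (fs v) ∧ Ev T q x (sn v) := by
      simpa [Jst] using h
    beta_reduce
    rw [← hp.1 w T hT x _ h2.1, ← hq.1 w T hT x _ h2.2, pr_fs_sn]
  · obtain ⟨w1, T1, h1, h1'⟩ := hp.2 b
    obtain ⟨w2, T2, h2, h2'⟩ := hq.2 b
    obtain ⟨w, T, hT, hT1, hT2⟩ := ok_union h1 h2
    obtain ⟨N, hN⟩ := bnd_pr T T
    refine comp_ext (w := w) hH b N hT (fun x hx => hN _ _ (ev_lt (hT1 _ (h1' x hx)))
      (ev_lt (hT2 _ (h2' x hx)))) ?_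
    intro x hx
    refine Or.inr (Or.inr (Or.inr (Or.inl ⟨rfl, ?_, ?_⟩)))
    · rw [fs_pr]
      exact hT1 _ (h1' x hx)
    · rw [sn_pr]
      exact hT2 _ (h2' x hx)

open Classical in
theorem comp_bex {X : Set M} [IS ({X} : Set (Set M))] {H : Set M} (hH : Cdd H) {p q : M}
    {ψ : M → M} {Q : M → Prop} (hp : Comp X H p ψ)
    (hq : Comp X H q (fun a => if Q a then 1 else 0)) :
    Comp X H (pr 4 (pr p q)) (fun a => if ∃ y, y < ψ a ∧ Q (pr a y) then 1 else 0) := by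
  refine ⟨fun w T hT x v hv => ?_, fun b => ?_⟩
  · have h := jst_of_ok hT hv
    have h2 : ∃ u, u < T ∧ (Ev T p x u ∧ ((v = 1 ∧ ∃ y, y < u ∧ Ev T q (pr x y) 1) ∨
        (v = 0 ∧ ∀ y, y < u → Ev T q (pr x y) 0))) := by
      simpa [Jst] using h
    obtain ⟨u, -, h3, h4⟩ := h2
    beta_reduce
    have h5 := hp.1 w T hT x u h3
    subst h5
    rcases h4 with ⟨h5, y, hy, h6⟩ | ⟨h5, h6⟩
    · have h7 : Q (pr x y) := by
        by_contra hc
        have := hq.1 w T hT _ _ h6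
        simp [hc] at this
      rw [if_pos ⟨y, hy, h7⟩, h5]
    · rw [if_neg, h5]
      rintro ⟨y, hy, h7⟩
      have := hq.1 w T hT _ _ (h6 y hy)
      simp [h7] at this
  · obtain ⟨w1, T1, h1, h1'⟩ := hp.2 b
    obtain ⟨N, hN⟩ := bnd_pr b T1
    obtain ⟨w2, T2, h2, h2'⟩ := hq.2 N
    obtain ⟨w, T, hT, hT1, hT2⟩ := ok_union h1 h2
    refine comp_ext (w := w) hH b 2 hT (fun x hx => ?_) ?_
    · by_cases h : ∃ y, y < ψ x ∧ Q (pr x y)
      · simp [h]
      · simp [h]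
    · intro x hx
      refine Or.inr (Or.inr (Or.inr (Or.inr ⟨rfl, ψ x, ev_lt (hT1 _ (h1' x hx)),
        hT1 _ (h1' x hx), ?_⟩)))
      have h3 : ∀ y, y < ψ x → Ev T q (pr x y) (if Q (pr x y) then 1 else 0) := fun y hy =>
        hT2 _ (h2' _ (hN x y hx (hy.trans (ev_lt (h1' x hx)))))
      by_cases h : ∃ y, y < ψ x ∧ Q (pr x y)
      · rw [if_pos h]
        obtain ⟨y, hy, hQ⟩ := h
        have h4 := h3 y hy
        rw [if_pos hQ] at h4
        exact Or.inl ⟨rfl, y, hy, h4⟩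
      · rw [if_neg h]
        refine Or.inr ⟨rfl, fun y hy => ?_⟩
        have h4 := h3 y hy
        rw [if_neg (fun hQ => h ⟨y, hy, hQ⟩)] at h4
        exact h4

end Pool.Agent.Work.MP_dfab40_lc.R
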