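import Pool.Agent.Work.MP_dfab40_lc.R.E.Sem

/-!
# The universal jump predicate (block E)
-/

namespace Pool.Agent.Work.MP_dfab40_lc.R

variable {M : Type} [PAm M] [ISig M]

/-- The universal predicate. -/
def Thu (X : Set M) (e w F : M) : Prop :=
  (∃ k, k < w ∧ (e = 2 * k ∧ ∃ T, T < w ∧ (Ok X (fun y => Mem y F) w T ∧
    ∃ y, y < w ∧ Mem (pr (fs k) (pr (pr (sn k) y) 1)) T))) ∨
  (∃ x, x < w ∧ (Mem x F ∧ ∃ a, a < x + 1 ∧ e = 2 * a + 1))

omit [ISig M] in
theorem two_mul_ne (k a : M) : 2 * k ≠ 2 * a + 1 := by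
  intro h
  rcases le_or_gt k a with h1 | h1
  · have h2 : 2 * k ≤ 2 * a := mul_le_mul_right h1 2
    have h3 : 2 * a < 2 * a + 1 := lt_succ_iff.2 le_rfl
    exact absurd h (h2.trans_lt h3).ne
  · have h2 : a + 1 ≤ k := succ_le_iff'.2 h1
    have h3 : 2 * (a + 1) ≤ 2 * k := mul_le_mul_right h2 2
    have h4 : 2 * a + 1 < 2 * (a + 1) := by
      have h5 : 2 * (a + 1) = (2 * a + 1) + 1 := by ring
      rw [h5]
      exact lt_succ_iff.2 le_rfl
    exact absurd h (h4.trans_le h3).ne'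

omit [ISig M] in
theorem two_mul_inj {k a : M} (h : 2 * k = 2 * a) : k = a := by
  have h2 : (0 : M) < 2 := by norm_num
  rcases lt_trichotomy k a with h1 | h1 | h1
  · exact absurd h (mul_lt_mul_of_pos_left h1 h2).ne
  · exact h1
  · exact absurd h (mul_lt_mul_of_pos_left h1 h2).ne'

theorem thu_dp (X : Set M) [IS ({X} : Set (Set M))] :
    Dp ({X} : Set (Set M)) (fun p : M × (M × M) => Thu X p.1 p.2.1 p.2.2) := by
  have h1 : Dp ({X} : Set (Set M)) (fun q : ((M × (M × M)) × M) × M =>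
      Ok X (fun y => Mem y q.1.1.2.2) q.1.1.2.1 q.2) :=
    dp_ok (Set.mem_singleton X) (Df.fst (Df.snd (Df.fst (Df.fst Df.id))))
      (Df.snd (Df.snd (Df.fst (Df.fst Df.id)))) (Df.snd Df.id)
  unfold Thu
  with_reducible repeat' (first
    | assumption
    | exact Dp.const _
    | exact Df.const _
    | exact Df.id
    | apply Dp.and
    | apply Dp.or
    | apply Dp.not
    | apply Dp.bex
    | apply Dp.ball
    | apply Dp.mem
    | apply Dp.lt
    | apply Dp.eq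
    | apply Df.pr
    | apply Df.fs
    | apply Df.sn
    | apply Df.fst
    | apply Df.snd
    | apply Df.pair
    | apply Df.add
    | apply Df.mul)

theorem thu_mono (X : Set M) (e w w' F F' : M) (hw : w ≤ w')
    (hF : ∀ x, x < w → (Mem x F ↔ Mem x F')) (h : Thu X e w F) : Thu X e w' F' := by
  rcases h with ⟨k, hk, he, T, hT, hO, y, hy, hm⟩ | ⟨x, hx, hm, a, ha, he⟩
  · exact Or.inl ⟨k, hk.trans_le hw, he, T, hT.trans_le hw, ok_mono hF hw hO, y, hy.trans_le hw, hm⟩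
  · exact Or.inr ⟨x, hx.trans_le hw, (hF x hx).1 hm, a, ha, he⟩

/-- The universal jump predicate. -/
def univJ (X : Set M) [IS ({X} : Set (Set M))] : JP ({X} : Set (Set M)) where
  Th := Thu X
  dp := thu_dp X
  mono := thu_mono X
  big := fun a w F x h1 h2 h3 => Or.inr ⟨x, h3, h1, a, lt_succ_iff.2 h2, rfl⟩
  big' := by
    rintro a w F (⟨k, -, he, -⟩ | ⟨x, hx, hm, a', ha, he⟩)
    · exact absurd he.symm (two_mul_ne k a)
    · have h1 : a = a' := two_mul_inj (add_right_cancel he)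
      exact ⟨x, hm, h1 ▸ lt_succ_iff.1 ha, hx⟩

theorem exists_univ_proof (X : Set M) [IS ({X} : Set (Set M))] :
    ∃ J : JP ({X} : Set (Set M)), ∀ H : Set M, (∀ n, ∃ F, ∀ x, Mem x F ↔ x < n ∧ x ∈ H) →
      ∀ P : M → Prop, S1 ({X, H} : Set (Set M)) P → ∃ g, ∀ x, P x ↔ J.Jump H (2 * pr g x) := by
  classical
  refine ⟨univJ X, fun H hH P hP => ?_⟩
  obtain ⟨Q, p, hp, h⟩ := s1_prog hH hP
  refine ⟨p, fun x => ?_⟩
  rw [h x]
  constructor
  · rintro ⟨y, hy⟩
    obtain ⟨w, T, hT, h1⟩ := hp.2 (pr x y + 1)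
    have h2 := h1 (pr x y) (lt_succ_iff.2 le_rfl)
    beta_reduce at h2
    rw [if_pos hy] at h2
    obtain ⟨n, hn1, hn2, hn3, hn4⟩ : ∃ n, w ≤ n ∧ T < n ∧ y < n ∧ pr p x < n := by
      refine ⟨w + T + y + pr p x + 1, ?_, ?_, ?_, ?_⟩
      · exact le_add_right (le_add_right (le_add_right le_self_add))
      · exact lt_succ_iff.2 (le_add_right (le_add_right le_add_self))
      · exact lt_succ_iff.2 (le_add_right le_add_self)
      · exact lt_succ_iff.2 le_add_self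
    obtain ⟨F, hF⟩ := hH n
    have hF' : ∀ x, x < n → (Mem x F ↔ x ∈ H) := fun x hx =>
      ⟨fun h => ((hF x).1 h).2, fun h => (hF x).2 ⟨hx, h⟩⟩
    refine ⟨n, F, hF', Or.inl ⟨pr p x, hn4, rfl, T, hn2, ?_, y, hn3, ?_⟩⟩
    · exact ok_mono (fun x hx => (hF' x (hx.trans_le hn1)).symm) hn1 hT
    · rw [fs_pr, sn_pr]
      exact h2
  · rintro ⟨w, F, hF, ⟨k, hk, he, T, hT, hO, y, hy, hm⟩ | ⟨z, hz, hm, a, ha, he⟩⟩
    · have h1 : pr p x = k := two_mul_inj he
      subst h1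
      rw [fs_pr, sn_pr] at hm
      have h2 := hp.1 w T (ok_mono hF le_rfl hO) _ _ hm
      refine ⟨y, ?_⟩
      by_contra hc
      beta_reduce at h2
      rw [if_neg hc] at h2
      exact one_ne_zero h2
    · exact absurd he (two_mul_ne _ _)

end Pool.Agent.Work.MP_dfab40_lc.R
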