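import Pool.Agent.Work.MP_dfab40_lc.R.St

/-!
# Evaluation tables (block E)

A program is a number `p = ⟨t, ⟨p1, p2⟩⟩`.  A table `T` is a finite set of triples `⟨p, ⟨a, v⟩⟩`
(the program `p` has the value `v` at the argument `a`).
-/

namespace Pool.Agent.Work.MP_dfab40_lc.R

variable {M : Type} [PAm M] [ISig M]

theorem df_ite {S : Set (Set M)} {A B : Type} [Cd M A] [Cd M B] {P : A → Prop} {f g : A → B}
    [h : ∀ a, Decidable (P a)] (hP : Dp S P) (hf : Df S f) (hg : Df S g) :
    Df S (fun a => if P a then f a else g a) := by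
  have h1 := Df.ite hP hf hg
  have h2 : (fun a => if P a then f a else g a) =
      (fun a => @ite _ (P a) (Classical.propDecidable _) (f a) (g a)) := by
    funext a
    split_ifs <;> rfl
  rw [h2]
  exact h1

/-- The table `T` says that the program `p` has the value `v` at `a`. -/
def Ev (T p a v : M) : Prop := Mem (pr p (pr a v)) T

open Classical in
/-- Elementary functions. -/
noncomputable def lf (X : Set M) (i c a : M) : M :=
  if i = 0 then fs a else if i = 1 then sn a else if i = 2 then c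
  else if i = 3 then fs a + sn a else if i = 4 then fs a * sn a
  else if i = 5 then (if fs a < sn a then 1 else 0) else (if a ∈ X then 1 else 0)

/-- One step of the evaluation. -/
def Jst (X : Set M) (K : M → Prop) (w T t p1 p2 a v : M) : Prop :=
  (t = 0 ∧ v = lf X p1 p2 a) ∨
  (t = 1 ∧ a < w ∧ ((K a ∧ v = 1) ∨ (¬ K a ∧ v = 0))) ∨
  (t = 2 ∧ ∃ u, u < T ∧ (Ev T p1 a u ∧ Ev T p2 u v)) ∨
  (t = 3 ∧ Ev T p1 a (fs v) ∧ Ev T p2 a (sn v)) ∨
  (t = 4 ∧ ∃ u, u < T ∧ (Ev T p1 a u ∧ ((v = 1 ∧ ∃ y, y < u ∧ Ev T p2 (pr a y) 1) ∨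
    (v = 0 ∧ ∀ y, y < u → Ev T p2 (pr a y) 0))))

/-- The entry `z` is justified by the table `T`, with queries to `K` below `w` only. -/
def Just (X : Set M) (K : M → Prop) (w T z : M) : Prop :=
  Jst X K w T (fs (fs z)) (fs (sn (fs z))) (sn (sn (fs z))) (fs (sn z)) (sn (sn z))

/-- `T` is a correct table. -/
def Ok (X : Set M) (K : M → Prop) (w T : M) : Prop := ∀ z, Mem z T → Just X K w T z

theorem df_lf {X : Set M} {A : Type} [Cd M A] {S : Set (Set M)} [IS S] (hX : X ∈ S) {i c a : A → M}
    (hi : Df S i) (hc : Df S c) (ha : Df S a) :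
    Df S (fun x => lf X (i x) (c x) (a x)) := by
  classical
  have h1 : Dp S (fun x => a x ∈ X) := Dp.comp (Dp.param hX) ha
  have h2 : Df S (fun x => if a x ∈ X then (1 : M) else 0) := df_ite h1 (Df.const 1) (Df.const 0)
  unfold lf
  with_reducible repeat' (first
    | assumption
    | exact Dp.const _
    | exact Df.const _
    | exact Df.id
    | apply Dp.and
    | apply Dp.or
    | apply Dp.not
    | apply Dp.bex
    | apply Dp.ball
    | apply Dp.mem
    | apply Dp.lt
    | apply Dp.eq
    | apply Df.pr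
    | apply Df.fs
    | apply Df.sn
    | apply Df.fst
    | apply Df.snd
    | apply Df.pair
    | apply Df.add
    | apply Df.mul
    | apply df_ite)

private theorem dp_just0 {X : Set M} {S : Set (Set M)} [IS S] (hX : X ∈ S) :
    Dp S (fun q : M × (M × (M × M)) =>
      Just X (fun y => Mem y q.2.1) q.1 q.2.2.1 q.2.2.2) := by
  have h2 : Df S (fun q : M × (M × (M × M)) => lf X (fs (sn (fs q.2.2.2)))
      (sn (sn (fs q.2.2.2))) (fs (sn q.2.2.2))) :=
    df_lf hX (Df.fs (Df.sn (Df.fs (Df.snd (Df.snd (Df.snd Df.id))))))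
      (Df.sn (Df.sn (Df.fs (Df.snd (Df.snd (Df.snd Df.id))))))
      (Df.fs (Df.sn (Df.snd (Df.snd (Df.snd Df.id)))))
  unfold Just Jst Ev
  with_reducible repeat' (first
    | assumption
    | exact Dp.const _
    | exact Df.const _
    | exact Df.id
    | apply Dp.and
    | apply Dp.or
    | apply Dp.not
    | apply Dp.bex
    | apply Dp.ball
    | apply Dp.mem
    | apply Dp.lt
    | apply Dp.eq
    | apply Df.pr
    | apply Df.fs
    | apply Df.sn
    | apply Df.fst
    | apply Df.snd
    | apply Df.pair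
    | apply Df.add
    | apply Df.mul
    | apply df_ite)

theorem dp_just {X : Set M} {A : Type} [Cd M A] {S : Set (Set M)} [IS S] (hX : X ∈ S)
    {w F T z : A → M} (hw : Df S w) (hF : Df S F) (hT : Df S T) (hz : Df S z) :
    Dp S (fun x => Just X (fun y => Mem y (F x)) (w x) (T x) (z x)) :=
  Dp.comp (f := fun x => (w x, (F x, (T x, z x)))) (dp_just0 hX) (hw.pair (hF.pair (hT.pair hz)))

theorem dp_ok {X : Set M} {A : Type} [Cd M A] {S : Set (Set M)} [IS S] (hX : X ∈ S)
    {w F T : A → M} (hw : Df S w) (hF : Df S F) (hT : Df S T) :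
    Dp S (fun x => Ok X (fun y => Mem y (F x)) (w x) (T x)) := by
  unfold Ok
  refine Dp.allMem hT ?_
  exact dp_just hX (hw.comp Df.id.fst) (hF.comp Df.id.fst) (hT.comp Df.id.fst) Df.id.snd

end Pool.Agent.Work.MP_dfab40_lc.R
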