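import Pool.Agent.Work.MP_dfab40_lc.R.E.Clo

/-!
# Programs for bounded relations (block E)
-/

namespace Pool.Agent.Work.MP_dfab40_lc.R

variable {M : Type} [PAm M] [ISig M]

/-- The function `f` on the context `A` with the coding `enc` is computed. -/
def CA (X H : Set M) {A : Type} (enc : A → M) (f : A → M) : Prop :=
  ∃ φ : M → M, (∃ p, Comp X H p φ) ∧ ∀ a, φ (enc a) = f a

variable {X : Set M} {H : Set M} {A : Type} {enc : A → M}

/-- Lifting of elementary functions. -/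
theorem CA.leaf [IS ({X} : Set (Set M))] (hH : Cdd H) {f : A → M} (i c : M) (hf : CA X H enc f) :
    CA X H enc (fun a => lf X i c (f a)) := by
  obtain ⟨φ, ⟨p, hp⟩, h⟩ := hf
  exact ⟨_, ⟨_, comp_comp hH hp (comp_leaf hH i c)⟩, fun a => by rw [h]⟩

theorem CA.pair [IS ({X} : Set (Set M))] (hH : Cdd H) {f g : A → M} (hf : CA X H enc f)
    (hg : CA X H enc g) : CA X H enc (fun a => pr (f a) (g a)) := by
  obtain ⟨φ, ⟨p, hp⟩, h⟩ := hf
  obtain ⟨γ, ⟨q, hq⟩, h'⟩ := hg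
  exact ⟨_, ⟨_, comp_pair hH hp hq⟩, fun a => by rw [h, h']⟩

theorem CA.congr {f g : A → M} (hf : CA X H enc f) (h : ∀ a, f a = g a) : CA X H enc g := by
  obtain ⟨φ, hp, h'⟩ := hf
  exact ⟨φ, hp, fun a => by rw [h', h]⟩

theorem CA.const [IS ({X} : Set (Set M))] (hH : Cdd H) (c : M) :
    CA X H enc (fun _ => c) :=
  ⟨_, ⟨_, comp_leaf hH 2 c⟩, fun a => by simp [lf]⟩

theorem CA.add [IS ({X} : Set (Set M))] (hH : Cdd H) {f g : A → M} (hf : CA X H enc f)
    (hg : CA X H enc g) : CA X H enc (fun a => f a + g a) :=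
  ((hf.pair hH hg).leaf hH 3 0).congr (fun a => by simp [lf])

theorem CA.mul [IS ({X} : Set (Set M))] (hH : Cdd H) {f g : A → M} (hf : CA X H enc f)
    (hg : CA X H enc g) : CA X H enc (fun a => f a * g a) :=
  ((hf.pair hH hg).leaf hH 4 0).congr (fun a => by simp [lf])

open Classical in
theorem CA.lt [IS ({X} : Set (Set M))] (hH : Cdd H) {f g : A → M} (hf : CA X H enc f)
    (hg : CA X H enc g) : CA X H enc (fun a => if f a < g a then 1 else 0) :=
  ((hf.pair hH hg).leaf hH 5 0).congr (fun a => by simp [lf])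

theorem poly_CA [IS ({X} : Set (Set M))] (hH : Cdd H) {C : Set (A → M)}
    (hC : ∀ f ∈ C, CA X H enc f) {f : A → M} (hf : PolyF C f) : CA X H enc f := by
  induction hf with
  | coord h => exact hC _ h
  | const c => exact CA.const hH c
  | add _ _ h1 h2 => exact h1.add hH h2
  | mul _ _ h1 h2 => exact h1.mul hH h2

theorem ext_CA [IS ({X} : Set (Set M))] (hH : Cdd H) {C : Set (A → M)}
    (hC : ∀ f ∈ C, CA X H enc f) : ∀ g ∈ extC C, CA X H (fun q : A × M => pr (enc q.1) q.2) g := by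
  rintro g (⟨f, hf, rfl⟩ | rfl)
  · obtain ⟨φ, ⟨p, hp⟩, h⟩ := hC f hf
    refine ⟨_, ⟨_, comp_comp hH (comp_leaf hH 0 0) hp⟩, fun a => ?_⟩
    simp [lf, h]
  · refine ⟨_, ⟨_, comp_leaf hH 1 0⟩, fun a => ?_⟩
    simp [lf]

open Classical in
/-- The relation `R` on the context `A` with the coding `enc` is computed. -/
def CR (X H : Set M) {A : Type} (enc : A → M) (R : A → Prop) : Prop :=
  ∃ Q : M → Prop, (∃ p, Comp X H p (fun a => if Q a then 1 else 0)) ∧ ∀ a, Q (enc a) ↔ R a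

theorem comp_congr {p : M} {χ ξ : M → M} (h : Comp X H p χ) (h' : ∀ a, χ a = ξ a) :
    Comp X H p ξ := by
  have h1 : χ = ξ := funext h'
  rw [← h1]
  exact h

open Classical in
theorem d0_CR [IS ({X} : Set (Set M))] (hH : Cdd H) {C : Set (A → M)} {R : A → Prop}
    (hR : D0 ({X, H} : Set (Set M)) A C R) :
    ∀ enc : A → M, (∀ f ∈ C, CA X H enc f) → CR X H enc R := by
  induction hR with
  | lt hf hg =>
    intro enc hC
    obtain ⟨φ, ⟨p, hp⟩, h⟩ := poly_CA hH hC hf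
    obtain ⟨γ, ⟨q, hq⟩, h'⟩ := poly_CA hH hC hg
    refine ⟨fun a => φ a < γ a,
      ⟨_, comp_congr (comp_comp hH (comp_pair hH hp hq) (comp_leaf hH 5 0)) ?_⟩, fun a => ?_⟩
    · intro a
      simp [lf]
    · beta_reduce
      rw [h, h']
  | @mem A C f Y hY hf =>
    intro enc hC
    obtain ⟨φ, ⟨p, hp⟩, h⟩ := poly_CA hH hC hf
    have h1 : ∃ p, Comp X H p (fun a => if φ a ∈ Y then 1 else 0) := by
      rcases hY with rfl | hY
      · refine ⟨_, comp_congr (comp_comp hH hp (comp_leaf hH 6 0)) ?_⟩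
        intro a
        simp [lf]
      · rw [Set.mem_singleton_iff] at hY
        subst hY
        exact ⟨_, comp_comp hH hp (comp_H hH)⟩
    refine ⟨fun a => φ a ∈ Y, h1, fun a => ?_⟩
    beta_reduce
    rw [h]
  | @not A C R hR ih =>
    intro enc hC
    obtain ⟨Q, ⟨p, hp⟩, h⟩ := ih enc hC
    refine ⟨fun a => ¬ Q a, ⟨_, comp_congr (comp_comp hH (comp_pair hH hp (comp_leaf hH 2 1))
      (comp_leaf hH 5 0)) ?_⟩, fun a => ?_⟩
    · intro a
      by_cases hq : Q a <;> simp [lf, hq]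
    · beta_reduce
      rw [h]
  | @and A C R R' hR hR' ih ih' =>
    intro enc hC
    obtain ⟨Q, ⟨p, hp⟩, h⟩ := ih enc hC
    obtain ⟨Q', ⟨p', hp'⟩, h'⟩ := ih' enc hC
    refine ⟨fun a => Q a ∧ Q' a, ⟨_, comp_congr (comp_comp hH (comp_pair hH hp hp')
      (comp_leaf hH 4 0)) ?_⟩, fun a => ?_⟩
    · intro a
      by_cases hq : Q a <;> by_cases hq' : Q' a <;> simp [lf, hq, hq']
    · beta_reduce
      rw [h, h']
  | @bex A C f R hf hR ih =>
    intro enc hC
    obtain ⟨φ, ⟨p, hp⟩, h⟩ := poly_CA hH hC hf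
    obtain ⟨Q, ⟨q, hq⟩, h'⟩ := ih _ (ext_CA hH hC)
    refine ⟨_, ⟨_, comp_bex hH hp hq⟩, fun a => ?_⟩
    beta_reduce
    rw [h]
    constructor
    · rintro ⟨y, hy, h1⟩
      exact ⟨y, hy, (h' (a, y)).1 h1⟩
    · rintro ⟨y, hy, h1⟩
      exact ⟨y, hy, (h' (a, y)).2 h1⟩

open Classical in
/-- Every `Σ_1` set in `X, H` is given by a program. -/
theorem s1_prog [IS ({X} : Set (Set M))] (hH : Cdd H) {P : M → Prop}
    (hP : S1 ({X, H} : Set (Set M)) P) : ∃ (Q : M → Prop) (p : M),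
      Comp X H p (fun a => if Q a then 1 else 0) ∧ ∀ x, P x ↔ ∃ y, Q (pr x y) := by
  obtain ⟨R, hR, h⟩ := hP
  have h1 : CR X H (fun q : M × M => pr q.1 q.2) R := by
    refine d0_CR hH hR _ (ext_CA (enc := fun x : M => x) hH ?_)
    intro f hf
    rw [Set.mem_singleton_iff] at hf
    subst hf
    exact ⟨_, ⟨_, comp_pair hH (comp_leaf hH 0 0) (comp_leaf hH 1 0)⟩, fun a => by simp [lf]⟩
  obtain ⟨Q, ⟨p, hp⟩, h2⟩ := h1
  refine ⟨Q, p, hp, fun x => ?_⟩
  have h3 : P x ↔ ∃ y, R (x, y) := h x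
  rw [h3]
  exact exists_congr fun y => (h2 (x, y)).symm

end Pool.Agent.Work.MP_dfab40_lc.R
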