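import Pool.Agent.Work.MP_dfab40_lc.R.E.Just

/-!
# Extension of evaluation tables (block E)
-/

namespace Pool.Agent.Work.MP_dfab40_lc.R

variable {M : Type} [PAm M] [ISig M]

theorem ev_lt {T p a v : M} (h : Ev T p a v) : v < T :=
  lt_of_le_of_lt ((right_le_pr a v).trans (right_le_pr p _)) (mem_lt h)

theorem jst_mono {X : Set M} {K K' : M → Prop} {w w' T T' t p1 p2 a v : M}
    (hK : ∀ x, x < w → (K x ↔ K' x)) (hw : w ≤ w') (hT : ∀ z, Mem z T → Mem z T')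
    (h : Jst X K w T t p1 p2 a v) : Jst X K' w' T' t p1 p2 a v := by
  have hE : ∀ p a v : M, Ev T p a v → Ev T' p a v := fun p a v h => hT _ h
  rcases h with h | ⟨h1, h2, h3⟩ | ⟨h1, u, h2, h3, h4⟩ | ⟨h1, h2, h3⟩ | ⟨h1, u, h2, h3, h4⟩
  · exact Or.inl h
  · rw [hK a h2] at h3
    exact Or.inr (Or.inl ⟨h1, lt_of_lt_of_le h2 hw, h3⟩)
  · exact Or.inr (Or.inr (Or.inl ⟨h1, u, ev_lt (hE _ _ _ h3), hE _ _ _ h3, hE _ _ _ h4⟩))
  · exact Or.inr (Or.inr (Or.inr (Or.inl ⟨h1, hE _ _ _ h2, hE _ _ _ h3⟩)))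
  · refine Or.inr (Or.inr (Or.inr (Or.inr ⟨h1, u, ev_lt (hE _ _ _ h3), hE _ _ _ h3, ?_⟩)))
    rcases h4 with ⟨h5, y, h6, h7⟩ | ⟨h5, h6⟩
    · exact Or.inl ⟨h5, y, h6, hE _ _ _ h7⟩
    · exact Or.inr ⟨h5, fun y hy => hE _ _ _ (h6 y hy)⟩

theorem just_mono {X : Set M} {K K' : M → Prop} {w w' T T' z : M}
    (hK : ∀ x, x < w → (K x ↔ K' x)) (hw : w ≤ w') (hT : ∀ z, Mem z T → Mem z T')
    (h : Just X K w T z) : Just X K' w' T' z := jst_mono hK hw hT h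

theorem ok_mono {X : Set M} {K K' : M → Prop} {w w' T : M}
    (hK : ∀ x, x < w → (K x ↔ K' x)) (hw : w ≤ w') (h : Ok X K w T) : Ok X K' w' T :=
  fun z hz => just_mono hK hw (fun _ h => h) (h z hz)

theorem ok_zero (X : Set M) (K : M → Prop) (w : M) : Ok X K w 0 :=
  fun z hz => absurd hz (not_mem_zero z)

/-- Initial segments of `H` are coded. -/
def Cdd (H : Set M) : Prop := ∀ n, ∃ F, ∀ x, Mem x F ↔ x < n ∧ x ∈ H

theorem ok_union {X : Set M} {K : M → Prop} {w w' T T' : M} (h : Ok X K w T)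
    (h' : Ok X K w' T') : ∃ w'' T'', Ok X K w'' T'' ∧ (∀ z, Mem z T → Mem z T'') ∧
      ∀ z, Mem z T' → Mem z T'' := by
  refine ⟨max w w', un T T', ?_, fun z hz => mem_un.2 (Or.inl hz),
    fun z hz => mem_un.2 (Or.inr hz)⟩
  intro z hz
  rcases mem_un.1 hz with h1 | h1
  · exact just_mono (fun _ _ => Iff.rfl) (le_max_left _ _) (fun z hz => mem_un.2 (Or.inl hz)) (h z h1)
  · exact just_mono (fun _ _ => Iff.rfl) (le_max_right _ _) (fun z hz => mem_un.2 (Or.inr hz))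
      (h' z h1)

theorem ok_ext {X : Set M} [IS ({X} : Set (Set M))] {H : Set M} (hH : Cdd H) {w T : M} (N : M)
    (h : Ok X (fun x => x ∈ H) w T) : ∃ T', Ok X (fun x => x ∈ H) w T' ∧
      (∀ z, Mem z T → Mem z T') ∧
      ∀ z, z < N → Just X (fun x => x ∈ H) w T z → Mem z T' := by
  obtain ⟨F, hF⟩ := hH w
  have hP : Dp ({X} : Set (Set M)) (fun z : M => Just X (fun y => Mem y F) w T z) :=
    dp_just (Set.mem_singleton X) (Df.const w) (Df.const F) (Df.const T) Df.id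
  have h1 : ∀ x, x < w → (Mem x F ↔ x ∈ H) := fun x hx =>
    ⟨fun h => ((hF x).1 h).2, fun h => (hF x).2 ⟨hx, h⟩⟩
  refine ⟨un T (sep N (fun z => Just X (fun y => Mem y F) w T z)), ?_,
    fun z hz => mem_un.2 (Or.inl hz), fun z hz hj => mem_un.2 (Or.inr ?_)⟩
  · intro z hz
    rcases mem_un.1 hz with h2 | h2
    · exact just_mono (fun _ _ => Iff.rfl) le_rfl (fun z hz => mem_un.2 (Or.inl hz)) (h z h2)
    · exact just_mono h1 le_rfl (fun z hz => mem_un.2 (Or.inl hz)) ((mem_sep hP).1 h2).2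
  · exact (mem_sep hP).2 ⟨hz, just_mono (fun x hx => (h1 x hx).symm) le_rfl (fun _ h => h) hj⟩

omit [ISig M] in
theorem bnd_pr (b C : M) : ∃ N, ∀ x v : M, x < b → v < C → pr x v < N :=
  ⟨(b + C) * (b + C), fun _ _ hx hv => pr_lt_sq (lt_of_lt_of_le hx le_self_add)
    (lt_of_lt_of_le hv le_add_self)⟩

omit [ISig M] in
theorem bnd3 (p b C : M) : ∃ N, ∀ x v : M, x < b → v < C → pr p (pr x v) < N := by
  obtain ⟨N1, h1⟩ := bnd_pr b C
  obtain ⟨N2, h2⟩ := bnd_pr (p + 1) N1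
  exact ⟨N2, fun x v hx hv => h2 p _ (lt_succ_iff.2 le_rfl) (h1 x v hx hv)⟩

/-- The program `p` computes `ψ` (with queries to `H`). -/
def Comp (X H : Set M) (p : M) (ψ : M → M) : Prop :=
  (∀ w T, Ok X (fun x => x ∈ H) w T → ∀ x v, Ev T p x v → v = ψ x) ∧
  ∀ b, ∃ w T, Ok X (fun x => x ∈ H) w T ∧ ∀ x, x < b → Ev T p x (ψ x)

theorem jst_of_ok {X : Set M} {K : M → Prop} {w T t p1 p2 a v : M} (h : Ok X K w T)
    (hE : Ev T (pr t (pr p1 p2)) a v) : Jst X K w T t p1 p2 a v := by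
  have h1 := h _ hE
  unfold Just at h1
  simpa using h1

theorem just_of_jst {X : Set M} {K : M → Prop} {w T t p1 p2 a v : M}
    (h : Jst X K w T t p1 p2 a v) : Just X K w T (pr (pr t (pr p1 p2)) (pr a v)) := by
  unfold Just
  simpa using h

/-- General completeness step. -/
theorem comp_ext {X : Set M} [IS ({X} : Set (Set M))] {H : Set M} (hH : Cdd H) {w T t p1 p2 : M}
    {ψ : M → M} (b C : M) (hT : Ok X (fun x => x ∈ H) w T) (hC : ∀ x, x < b → ψ x < C)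
    (h : ∀ x, x < b → Jst X (fun x => x ∈ H) w T t p1 p2 x (ψ x)) :
    ∃ w T, Ok X (fun x => x ∈ H) w T ∧ ∀ x, x < b → Ev T (pr t (pr p1 p2)) x (ψ x) := by
  obtain ⟨N, hN⟩ := bnd3 (pr t (pr p1 p2)) b C
  obtain ⟨T', h1, -, h2⟩ := ok_ext hH N hT
  exact ⟨w, T', h1, fun x hx => h2 _ (hN x _ hx (hC x hx)) (just_of_jst (h x hx))⟩

end Pool.Agent.Work.MP_dfab40_lc.R
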